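import Pool.Agent.helper69.AD.GS3

open scoped MatrixGroups LinearAlgebra.Projectivization
open Matrix UpperHalfPlane

namespace AdSBend

open LeafSystem

/-- properties of a linear coordinate on the complement of the ideal point `o` -/
def HX8_P (o : Bd) (φ : Bd → ℝ) : Prop :=
  (∀ a b, a ≠ o → b ≠ o → (Cyc o a b ↔ φ a < φ b)) ∧
  (∀ a b c, a ≠ o → b ≠ o → c ≠ o → (Cyc a b c ↔
    (φ a < φ b ∧ φ b < φ c) ∨ (φ b < φ c ∧ φ c < φ a) ∨ (φ c < φ a ∧ φ a < φ b)))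

theorem HX8_face (hB4 : BD4_stmt) {o e : Bd} {φ : Bd → ℝ} (hφ : HX8_P o φ) {p : Bd × Bd}
    (h : Facing (e, o) p) : p.1 ≠ o ∧ p.2 ≠ o ∧ e ≠ o ∧ φ p.1 < φ p.2 ∧ φ p.2 < φ e := by
  obtain ⟨h1, h2⟩ := h
  obtain ⟨hne, hrot, -, -, htr, -⟩ := hB4
  simp only at h1 h2
  have e1 := hne _ _ _ h1
  have e2 := hne _ _ _ h2
  have h3 := hrot _ _ _ h1
  -- Cyc o p.1 e
  have h4 := htr _ _ _ _ h1 h2
  -- Cyc e o p.2 ∧ Cyc o p.1 p.2
  have e3 := hne _ _ _ h4.1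
  have h5 := hrot _ _ _ h4.1
  refine ⟨fun h => e1.2.1 h.symm, fun h => e3.2.1 h.symm, e1.1, ?_, ?_⟩
  · exact (hφ.1 _ _ (fun h => e1.2.1 h.symm) (fun h => e3.2.1 h.symm)).1 h4.2
  · exact (hφ.1 _ _ (fun h => e3.2.1 h.symm) e1.1).1 h5

theorem HX8_mid (hB4 : BD4_stmt) {o : Bd} {φ : Bd → ℝ} (hφ : HX8_P o φ) {p : Bd × Bd} {a : Bd}
    (h1 : p.1 ≠ o) (h2 : p.2 ≠ o) (h3 : φ p.1 < φ p.2) (ha : Cyc p.1 a p.2) :
    a ≠ o ∧ φ p.1 < φ a ∧ φ a < φ p.2 := by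
  obtain ⟨hne, hrot, hasy, -, htr, -⟩ := hB4
  have ho : a ≠ o := by
    rintro rfl
    have := (hφ.1 _ _ h1 h2).2 h3
    -- Cyc o p1 p2 , ha : Cyc p1 o p2
    have h5 := hrot _ _ _ this
    have h6 := hrot _ _ _ h5
    -- h5 : Cyc p1 p2 o
    exact hasy _ _ _ ha h5
  have := (hφ.2 _ _ _ h1 ho h2).1 ha
  refine ⟨ho, ?_, ?_⟩ <;> grind

theorem HX8_core1 (hB4 : BD4_stmt) (hB3 : BD3_stmt) {o e : Bd} {p w u : Bd × Bd}
    {a b a' b' : Bd} (hp : Facing (e, o) p) (hw : Facing (e, o) w) (hu : Facing (e, o) u)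
    (hpw : Facing p w) (hwu : Facing w u) (h1 : Cyc e p.1 w.1) (h2 : Cyc e w.1 u.1)
    (ha : Cyc p.1 a p.2) (ha' : Cyc w.1 a' w.2) (hb : Cyc u.1 b u.2) (hbb : Cyc o b b') :
    Cyc a a' b ∧ Cyc a b b' := by
  obtain ⟨φ, -, -, g3, g4, -⟩ := hB3 o
  have hφ : HX8_P o φ := ⟨g3, g4⟩
  obtain ⟨p1, p2, he, p3, p4⟩ := HX8_face hB4 hφ hp
  obtain ⟨w1, w2, -, w3, w4⟩ := HX8_face hB4 hφ hw
  obtain ⟨u1, u2, -, u3, u4⟩ := HX8_face hB4 hφ hu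
  obtain ⟨a1, a2, a3⟩ := HX8_mid hB4 hφ p1 p2 p3 ha
  obtain ⟨c1, c2, c3⟩ := HX8_mid hB4 hφ w1 w2 w3 ha'
  obtain ⟨b1, b2, b3⟩ := HX8_mid hB4 hφ u1 u2 u3 hb
  have d1 : b' ≠ o := (hB4.1 _ _ _ hbb).2.2
  have d2 := (hφ.1 _ _ b1 d1).1 hbb
  have k1 := (hφ.2 _ _ _ he p1 w1).1 h1
  have k2 := (hφ.2 _ _ _ he w1 u1).1 h2
  have k3 := (hφ.2 _ _ _ p1 p2 w1).1 hpw.1
  have k4 := (hφ.2 _ _ _ w1 w2 u1).1 hwu.1
  have l1 : φ p.1 < φ w.1 := by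
    rcases k1 with k1 | k1 | k1
    · linarith [k1.1, k1.2]
    · exact k1.1
    · linarith [k1.1, k1.2]
  have l2 : φ w.1 < φ u.1 := by
    rcases k2 with k1 | k1 | k1
    · linarith [k1.1, k1.2]
    · exact k1.1
    · linarith [k1.1, k1.2]
  have l3 : φ p.2 < φ w.1 := by
    rcases k3 with k1 | k1 | k1
    · exact k1.2
    · linarith [k1.1, k1.2]
    · linarith [k1.1, k1.2]
  have l4 : φ w.2 < φ u.1 := by
    rcases k4 with k1 | k1 | k1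
    · exact k1.2
    · linarith [k1.1, k1.2]
    · linarith [k1.1, k1.2]
  constructor
  · rw [hφ.2 _ _ _ a1 c1 b1]
    left
    constructor <;> linarith
  · rw [hφ.2 _ _ _ a1 b1 d1]
    left
    constructor <;> linarith

theorem HX8_core2 (hB4 : BD4_stmt) (hB3 : BD3_stmt) {o e : Bd} {p w u : Bd × Bd}
    {a b a' b' : Bd} (hp : Facing (e, o) p) (hw : Facing (e, o) w) (hu : Facing (e, o) u)
    (hpw : Facing w p) (hwu : Facing u w) (h1 : Cyc e w.1 p.1) (h2 : Cyc e u.1 w.1)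
    (ha : Cyc p.1 a p.2) (ha' : Cyc w.1 a' w.2) (hb : Cyc u.1 b u.2) (hbb : Cyc o b' b) :
    Cyc a b' b ∧ Cyc a b a' := by
  obtain ⟨φ, -, -, g3, g4, -⟩ := hB3 o
  have hφ : HX8_P o φ := ⟨g3, g4⟩
  obtain ⟨p1, p2, he, p3, p4⟩ := HX8_face hB4 hφ hp
  obtain ⟨w1, w2, -, w3, w4⟩ := HX8_face hB4 hφ hw
  obtain ⟨u1, u2, -, u3, u4⟩ := HX8_face hB4 hφ hu
  obtain ⟨a1, a2, a3⟩ := HX8_mid hB4 hφ p1 p2 p3 ha
  obtain ⟨c1, c2, c3⟩ := HX8_mid hB4 hφ w1 w2 w3 ha'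
  obtain ⟨b1, b2, b3⟩ := HX8_mid hB4 hφ u1 u2 u3 hb
  have d1 : b' ≠ o := fun h => (hB4.1 _ _ _ hbb).1 h.symm
  have d2 := (hφ.1 _ _ d1 b1).1 hbb
  have k1 := (hφ.2 _ _ _ he w1 p1).1 h1
  have k2 := (hφ.2 _ _ _ he u1 w1).1 h2
  have k3 := (hφ.2 _ _ _ w1 w2 p1).1 hpw.1
  have k4 := (hφ.2 _ _ _ u1 u2 w1).1 hwu.1
  have l1 : φ w.1 < φ p.1 := by
    rcases k1 with k1 | k1 | k1
    · linarith [k1.1, k1.2]
    · exact k1.1
    · linarith [k1.1, k1.2]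
  have l2 : φ u.1 < φ w.1 := by
    rcases k2 with k1 | k1 | k1
    · linarith [k1.1, k1.2]
    · exact k1.1
    · linarith [k1.1, k1.2]
  have l3 : φ w.2 < φ p.1 := by
    rcases k3 with k1 | k1 | k1
    · exact k1.2
    · linarith [k1.1, k1.2]
    · linarith [k1.1, k1.2]
  have l4 : φ u.2 < φ w.1 := by
    rcases k4 with k1 | k1 | k1
    · exact k1.2
    · linarith [k1.1, k1.2]
    · linarith [k1.1, k1.2]
  constructor
  · rw [hφ.2 _ _ _ a1 d1 b1]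
    right; left
    constructor <;> linarith
  · rw [hφ.2 _ _ _ a1 b1 c1]
    right; left
    constructor <;> linarith

theorem HX8 (hH1 : HX1_stmt) (hH5 : HX5_stmt) (hP2 : PN2_stmt) (hG1 : GM1_stmt)
    (hB2 : BD2_stmt) (hB3 : BD3_stmt) (hB4 : BD4_stmt) : HX8_stmt := by
  intro Γ hΓ S hS p u a b hpu ha hb hun
  obtain ⟨x, y, hxy⟩ := hS.hex p hpu.1
  obtain ⟨x', y', hhex, -, hs⟩ := hH5 Γ hΓ S p x y hxy u hpu
  rcases hs with rfl | hcyc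
  · exact Or.inl ⟨y', Or.inl hhex⟩
  obtain ⟨hrot, hsh, hush, heq, -, hww, hconn⟩ := hH1 Γ hΓ S
  obtain ⟨hsym, -, htri⟩ := hP2 Γ hΓ S
  obtain ⟨hne, hcrot, hasy, htot, htr, -⟩ := id hB4
  have hw := hww _ _ _ hhex
  by_cases huw : u = ga (gen Γ y') p
  · exact Or.inr ⟨x', y', hhex, huw⟩
  exfalso
  -- the hexagons at `y'` and `x'`
  have hY : S.Hex y' p x' := hrot _ _ _ (hrot _ _ _ hhex)
  have hYw : S.Hex y' x' (ga (gen Γ y') p) := hsh _ _ _ hY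
  have hX : S.Hex x' y' p := hrot _ _ _ hhex
  -- connectedness
  have hc1 : HexConn Γ (p, x', y') (ga (gen Γ y') p, y', x') := by
    refine Relation.ReflTransGen.tail (Relation.ReflTransGen.tail
      (Relation.ReflTransGen.tail (Relation.ReflTransGen.tail
      (Relation.ReflTransGen.tail Relation.ReflTransGen.refl
        (Or.inl rfl)) (Or.inl rfl)) (Or.inr (Or.inl rfl))) (Or.inl rfl)) (Or.inl rfl)
  have hc2 := (hconn _ _ _ _ _ _ hhex hc1).2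
  set w := ga (gen Γ y') p with hwdef
  have hcxy : Cyc y'.1 x'.1 w.1 := hYw.2.2.2.1
  have hcyp : Cyc y'.1 p.1 x'.1 := hY.2.2.2.1
  have hcpw : Cyc y'.1 p.1 w.1 := (htr _ _ _ _ hcyp hcxy).1
  have hpw : S.CoPl p w := by
    rcases hc2 with h | h
    · exfalso
      rw [h] at hcpw
      exact (hne _ _ _ hcpw).2.1 rfl
    · exact h
  have huwC : S.CoPl w u := htri p w u hpw hpu (fun h => huw h.symm)
  have hux : S.CoPl x' u := htri p x' u hhex.1 hpu (fun h => (hne _ _ _ hcyc).1 (by rw [h]))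
  have huy : S.CoPl y' u := htri p y' u (hsym _ _ hhex.2.2.1) hpu
    (fun h => (hne _ _ _ hcyc).2.1 (by rw [h]))
  have hwu1 : w.1 ≠ u.1 := by
    have := huwC.2.2.1
    exact fun h => (hne _ _ _ this.2).1 h
  have hgy := hG1 Γ hΓ y' (S.closed _ hYw.1.1)
  have hgx := hG1 Γ hΓ x' (S.closed _ hX.1.1)
  have hpw' := hpw.2.2.1
  -- Cyc x'.1 u.1 y'.1 ; Cyc x'.1 w.1 y'.1
  have hcxw : Cyc x'.1 w.1 y'.1 := hcrot _ _ _ hcxy
  have hwne : w.1 ≠ y'.1 := (hne _ _ _ hcxw).2.1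
  have hune : u.1 ≠ y'.1 := (hne _ _ _ hcyc).2.1
  rcases htot y'.1 w.1 u.1 (fun h => hwne h.symm) hwu1 hune with hcase | hcase
  · -- `u` lies between `w` and `y'`
    apply hun (gen Γ y') hgy.1
    refine Or.inl ?_
    have hattr := hgy.2.1
    have hbf : Cyc y'.2 b y'.1 := by
      obtain ⟨φ, -, -, g3, g4, -⟩ := hB3 y'.2
      have hφ : HX8_P y'.2 φ := ⟨g3, g4⟩
      obtain ⟨u1, u2, he, u3, u4⟩ := HX8_face hB4 hφ (p := u) (e := y'.1) huy.2.2.1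
      obtain ⟨b1, b2, b3⟩ := HX8_mid hB4 hφ u1 u2 u3 hb
      rw [hφ.1 _ _ b1 he]
      linarith
    exact HX8_core1 (o := y'.2) (e := y'.1) (p := p) (w := w) (u := u) hB4 hB3
      hY.1.2.2.1 (hsym _ _ hYw.2.2.1).2.2.1 huy.2.2.1 hpw' huwC.2.2.1 hcpw hcase ha
      (by
        have := (hB2 (gen Γ y') p.1 a p.2).2 ha
        exact this) hb (hattr.2.2.2 b hbf)
  · -- `u` lies between `x'` and `w`
    have hwx : w = ga (gen Γ x')⁻¹ p := hw.symm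
    have hinv : (gen Γ x')⁻¹ ∈ Γ := Γ.inv_mem hgx.1
    apply hun (gen Γ x')⁻¹ hinv
    refine Or.inr ?_
    have hattr := hgx.2.1
    have hxw : S.CoPl x' w := hYw.2.1
    have hcu : Cyc x'.1 u.1 w.1 := by
      -- Cyc y'.1 u.1 w.1, Cyc x'.1 u.1 y'.1, Cyc x'.1 w.1 y'.1
      have t1 := hcrot _ _ _ (hcrot _ _ _ hcyc)
      -- Cyc y'.1 x'.1 u.1
      have t2 := (htr _ _ _ _ t1 hcase).2
      exact t2
    have hcp : Cyc x'.1 w.1 p.1 := by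
      -- Cyc y'.1 p.1 x'.1 , Cyc x'.1 w.1 y'.1
      have t1 := hcrot _ _ _ (hcrot _ _ _ hcyp)
      -- Cyc x'.1 y'.1 p.1
      exact (htr _ _ _ _ hcxw t1).1
    have hbf : Cyc x'.2 b x'.1 := by
      obtain ⟨φ, -, -, g3, g4, -⟩ := hB3 x'.2
      have hφ : HX8_P x'.2 φ := ⟨g3, g4⟩
      obtain ⟨u1, u2, he, u3, u4⟩ := HX8_face hB4 hφ (p := u) (e := x'.1) hux.2.2.1
      obtain ⟨b1, b2, b3⟩ := HX8_mid hB4 hφ u1 u2 u3 hb
      rw [hφ.1 _ _ b1 he]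
      linarith
    have hi1 : (gen Γ x')⁻¹ • x'.1 = x'.1 := by
      rw [inv_smul_eq_iff]; exact hattr.2.1.symm
    have hi2 : (gen Γ x')⁻¹ • x'.2 = x'.2 := by
      rw [inv_smul_eq_iff]; exact hattr.2.2.1.symm
    have hbf' : Cyc x'.2 ((gen Γ x')⁻¹ • b) x'.1 := by
      have := (hB2 (gen Γ x')⁻¹ x'.2 b x'.1).2 hbf
      rwa [hi1, hi2] at this
    have hbb := hattr.2.2.2 _ hbf'
    rw [smul_inv_smul] at hbb
    refine HX8_core2 (o := x'.2) (e := x'.1) (p := p) (w := w) (u := u) hB4 hB3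
      (hsym _ _ hhex.1).2.2.1 hxw.2.2.1 hux.2.2.1 (hsym _ _ hpw).2.2.1
      (hsym _ _ huwC).2.2.1 hcp hcu ha ?_ hb hbb
    have := (hB2 (gen Γ x')⁻¹ p.1 a p.2).2 ha
    rw [hwx]
    exact this

end AdSBend
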