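import Pool.Agent.helper69.AD.GS4
import Pool.Agent.helper99.AG.HX8

open scoped MatrixGroups LinearAlgebra.Projectivization
open Matrix UpperHalfPlane

namespace AdSBend

open LeafSystem

/-! ### signs and traces -/

theorem CLK_refl (g : SL(2, ℝ)) : PEq g g := Or.inl rfl

theorem CLK_symm {g h : SL(2, ℝ)} (H : PEq g h) : PEq h g := by
  rcases H with rfl | rfl
  · exact Or.inl rfl
  · exact Or.inr (by simp)

theorem CLK_trans {g h k : SL(2, ℝ)} (H : PEq g h) (H' : PEq h k) : PEq g k := by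
  rcases H with rfl | rfl <;> rcases H' with rfl | rfl
  · exact Or.inl rfl
  · exact Or.inr rfl
  · exact Or.inr rfl
  · exact Or.inl (by simp)

theorem CLK_mul {g h g' h' : SL(2, ℝ)} (H : PEq g h) (H' : PEq g' h') :
    PEq (g * g') (h * h') := by
  rcases H with rfl | rfl <;> rcases H' with rfl | rfl
  · exact Or.inl rfl
  · exact Or.inr (by simp)
  · exact Or.inr (by simp)
  · exact Or.inl (by simp)

theorem CLK_inv {g h : SL(2, ℝ)} (H : PEq g h) : PEq g⁻¹ h⁻¹ := by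
  rcases H with rfl | rfl
  · exact Or.inl rfl
  · refine Or.inr ?_
    rw [inv_eq_iff_mul_eq_one]
    simp

theorem CLK_pow {g h : SL(2, ℝ)} (H : PEq g h) (n : ℕ) : PEq (g ^ n) (h ^ n) := by
  induction n with
  | zero => exact Or.inl (by simp)
  | succ n ih => rw [pow_succ, pow_succ]; exact CLK_mul ih H

theorem CLK_trc_neg (g : SL(2, ℝ)) : trc (-g) = - trc g := by
  unfold trc
  simp
  ring

theorem CLK_abs {g h : SL(2, ℝ)} (H : PEq g h) : |trc g| = |trc h| := by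
  rcases H with rfl | rfl
  · rfl
  · rw [CLK_trc_neg, abs_neg]

theorem CLK_trc_eq (g : SL(2, ℝ)) : trc g = Matrix.trace g.1 := by
  unfold trc
  rw [Matrix.trace_fin_two]

theorem CLK_comm (g h : SL(2, ℝ)) : trc (g * h) = trc (h * g) := by
  rw [CLK_trc_eq, CLK_trc_eq, Matrix.SpecialLinearGroup.coe_mul,
    Matrix.SpecialLinearGroup.coe_mul, Matrix.trace_mul_comm]

theorem CLK_trc_inv (g : SL(2, ℝ)) : trc g⁻¹ = trc g := by
  unfold trc
  rw [Matrix.SpecialLinearGroup.coe_inv, Matrix.adjugate_fin_two]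
  simp
  ring

theorem CLK_conj (g h : SL(2, ℝ)) : trc (h * g * h⁻¹) = trc g := by
  rw [CLK_comm, inv_mul_cancel_left]

theorem CLK_pos (g : SL(2, ℝ)) : PEq (pos g) g := by
  unfold pos
  split_ifs
  · exact Or.inl rfl
  · exact Or.inr rfl

theorem CLK_one : trc 1 = 2 := by
  unfold trc
  simp
  norm_num

theorem CLK_not_one {g : SL(2, ℝ)} (h : 2 < |trc g|) : ¬ PEq g 1 := by
  intro H
  rw [CLK_abs H, CLK_one] at h
  norm_num at h

theorem CLK_pos_eq {g h : SL(2, ℝ)} (H : PEq g h) (h2 : 2 < |trc g|) : pos g = pos h := by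
  rcases H with rfl | rfl
  · rfl
  · rw [CLK_trc_neg, abs_neg] at h2
    unfold pos
    rw [CLK_trc_neg]
    split_ifs with h3 h4 h4
    · exfalso
      have : trc h = 0 := by linarith
      rw [this] at h2
      norm_num at h2
    · rfl
    · simp
    · exfalso
      linarith

theorem CLK_Dm_mul (s t : ℝ) : Dm s * Dm t = Dm (s + t) := by
  apply Matrix.SpecialLinearGroup.ext
  intro i j
  rw [Matrix.SpecialLinearGroup.coe_mul]
  unfold Dm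
  fin_cases i <;> fin_cases j <;> simp [Matrix.mul_apply, Fin.sum_univ_two, ← Real.exp_add]
  · ring
  · ring

theorem CLK_Dm_pow (t : ℝ) (k : ℕ) : Dm t ^ k = Dm (k * t) := by
  induction k with
  | zero =>
    apply Matrix.SpecialLinearGroup.ext
    intro i j
    unfold Dm
    fin_cases i <;> fin_cases j <;> simp
  | succ k ih =>
    rw [pow_succ, ih, CLK_Dm_mul]
    congr 1
    push_cast
    ring

theorem CLK_Dm_trc (t : ℝ) : trc (Dm t) = 2 * Real.cosh (t / 2) := by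
  unfold trc Dm
  rw [Real.cosh_eq]
  simp
  ring

theorem CLK_trc_pow (hB6 : BD6_stmt) (hB8 : BD8_stmt) {g : SL(2, ℝ)} {p : Bd × Bd}
    (h : Attracts g p) (k : ℕ) :
    |trc (g ^ k)| = 2 * Real.cosh (k * len g / 2) := by
  obtain ⟨F, hF⟩ := hB6.1 p h.1
  have h1 := (hB8.2.1 g F p h hF).1
  have h2 := CLK_pow (CLK_pos g) k
  rw [← CLK_abs h2, h1]
  have : (F * Dm (len g) * F⁻¹) ^ k = F * Dm (k * len g) * F⁻¹ := by
    rw [conj_pow, CLK_Dm_pow]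
  rw [this, CLK_conj, CLK_Dm_trc, abs_of_pos]
  have := Real.cosh_pos ((k : ℝ) * len g / 2)
  linarith

/-! ### attracting points -/

theorem CLK_neg_smul (g : SL(2, ℝ)) (x : Bd) : (-g) • x = g • x := by
  induction x using Projectivization.ind with | _ u hu =>
  rw [Projectivization.smul_mk, Projectivization.smul_mk, Projectivization.mk_eq_mk_iff']
  refine ⟨-1, ?_⟩
  have h1 : ((-g : SL(2, ℝ))).1.mulVec u = -(g.1.mulVec u) := by
    rw [Matrix.SpecialLinearGroup.coe_neg, Matrix.neg_mulVec]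
  exact (neg_one_smul ℝ (g.1.mulVec u)).trans h1.symm

theorem CLK_peq_smul {g h : SL(2, ℝ)} (H : PEq g h) (x : Bd) : g • x = h • x := by
  rcases H with H | H
  · rw [H]
  · rw [H, CLK_neg_smul]

theorem CLK_cyc_ne (hB4 : BD4_stmt) {p : Bd × Bd} (h : p.1 ≠ p.2) : ∃ c, Cyc p.2 c p.1 :=
  hB4.2.2.2.2.2 p.2 p.1 h.symm

theorem CLK_smul_PEq (hB8 : BD8_stmt) {g h : SL(2, ℝ)} {p : Bd × Bd} (H : PEq g h)
    (ha : Attracts g p) : Attracts h p := by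
  rw [hB8.1] at ha ⊢
  obtain ⟨F, t, h1, h2, h3⟩ := ha
  exact ⟨F, t, h1, h2, CLK_trans (CLK_symm H) h3⟩

theorem CLK_fix {g : SL(2, ℝ)} {p : Bd × Bd} (H : Attracts g p ∨
    Attracts g (sw p)) : g • p.1 = p.1 ∧ g • p.2 = p.2 := by
  rcases H with H | H
  · exact ⟨H.2.1, H.2.2.1⟩
  · exact ⟨H.2.2.1, H.2.1⟩

theorem CLK_fix_inv {g : SL(2, ℝ)} {c : Bd} (H : g • c = c) : g⁻¹ • c = c := by
  rw [inv_smul_eq_iff]; exact H.symm

theorem CLK_iter (hB2 : BD2_stmt) (hB4 : BD4_stmt) {g : SL(2, ℝ)} {p : Bd × Bd}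
    (h : Attracts g p) (k : ℕ) (c : Bd) (hc : Cyc p.2 c p.1) :
    (g ^ k • c = c ∨ Cyc p.2 c (g ^ k • c)) ∧ Cyc p.2 (g ^ k • c) p.1 := by
  induction k with
  | zero => simp [hc]
  | succ k ih =>
    obtain ⟨ih1, ih2⟩ := ih
    have e1 : g ^ (k + 1) • c = g • (g ^ k • c) := by
      rw [pow_succ', mul_smul]
    have e2 := h.2.2.2 _ ih2
    have e3 : Cyc p.2 (g • (g ^ k • c)) p.1 := by
      have := (hB2 g p.2 (g ^ k • c) p.1).2 ih2
      rwa [h.2.1, h.2.2.1] at this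
    rw [e1]
    refine ⟨Or.inr ?_, e3⟩
    rcases ih1 with ih1 | ih1
    · rw [ih1] at e2 ⊢
      exact e2
    · exact (hB4.2.2.2.2.1 _ _ _ _ ih1 e2).1

/-- an element that attracts `p` is a positive power of the generator -/
theorem CLK_power (hB2 : BD2_stmt) (hB4 : BD4_stmt) {Γ : Subgroup SL(2, ℝ)} {g a : SL(2, ℝ)}
    {p : Bd × Bd} (hg : IsGen Γ p g) (ha : Attracts a p) (haΓ : a ∈ Γ) :
    ∃ m : ℕ, 1 ≤ m ∧ PEq a (g ^ m) := by
  obtain ⟨n, hn⟩ := hg.2.2 a haΓ ha.2.1 ha.2.2.1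
  by_cases h0 : 1 ≤ n
  · obtain ⟨m, rfl⟩ := Int.eq_ofNat_of_zero_le (by omega : 0 ≤ n)
    refine ⟨m, by exact_mod_cast h0, ?_⟩
    simpa using hn
  · exfalso
    obtain ⟨k, hk⟩ := Int.eq_ofNat_of_zero_le (by omega : 0 ≤ -n)
    have hk' : n = -(k : ℤ) := by omega
    rw [hk', _root_.zpow_neg, zpow_natCast] at hn
    obtain ⟨c, hc⟩ := CLK_cyc_ne hB4 ha.1
    have h1 := ha.2.2.2 c hc
    have h2 : Cyc p.2 (a • c) p.1 := by
      have := (hB2 a p.2 c p.1).2 hc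
      rwa [ha.2.1, ha.2.2.1] at this
    have h3 := (CLK_iter hB2 hB4 hg.2.1 k _ h2).1
    have h4 : g ^ k • (a • c) = c := by
      have h5 : PEq (g ^ k * a) 1 := by
        have := CLK_mul (CLK_refl (g ^ k)) hn
        rwa [mul_inv_cancel] at this
      rw [← mul_smul, CLK_peq_smul h5, one_smul]
    rw [h4] at h3
    rcases h3 with h3 | h3
    · exact (hB4.1 _ _ _ h1).2.1 h3
    · exact hB4.2.2.1 _ _ _ h1 h3

/-! ### the stabiliser of a plaque -/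

theorem CLK_stab_mul (hN5 : PN5_stmt) {Γ : Subgroup SL(2, ℝ)} {S : LeafSystem Γ} {z₀ : ℍ}
    (hz : S.OffPt z₀) {g h : SL(2, ℝ)} (hg : g ∈ Γ) (hh : h ∈ Γ) (h1 : S.SamePl z₀ (g • z₀))
    (h2 : S.SamePl z₀ (h • z₀)) : S.SamePl z₀ ((g * h) • z₀) := by
  obtain ⟨hs, ht, ho, hi, -⟩ := hN5 Γ S
  have h3 := hi g hg _ _ h2
  rw [← mul_smul] at h3
  exact ht _ _ _ hz (ho g hg _ hz) (ho _ (Γ.mul_mem hg hh) _ hz) h1 h3

theorem CLK_stab_inv (hN5 : PN5_stmt) {Γ : Subgroup SL(2, ℝ)} {S : LeafSystem Γ} {z₀ : ℍ}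
    {g : SL(2, ℝ)} (hg : g ∈ Γ) (h1 : S.SamePl z₀ (g • z₀)) :
    S.SamePl z₀ (g⁻¹ • z₀) := by
  obtain ⟨hs, ht, ho, hi, -⟩ := hN5 Γ S
  have h3 := hi g⁻¹ (Γ.inv_mem hg) _ _ h1
  rw [inv_smul_smul] at h3
  exact hs _ _ h3

theorem CLK_stab_gen (hG1 : GM1_stmt) (hN3 : PN3_stmt) (hN5 : PN5_stmt)
    {Γ : Subgroup SL(2, ℝ)} (hΓ : IsClosedSurfaceGroup Γ) {S : LeafSystem Γ} {z₀ : ℍ}
    {p : Bd × Bd} (hp : p ∈ S.L) (hn : S.Near p z₀) :
    S.SamePl z₀ (gen Γ p • z₀) := by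
  have hg := hG1 Γ hΓ p (S.closed p hp)
  obtain ⟨hs, ht, ho, hi, -, hi2, -⟩ := hN5 Γ S
  have h1 := hi2 (gen Γ p) hg.1 p z₀ hn
  rw [hg.2.1.2.1, hg.2.1.2.2.1] at h1
  exact (hN3 Γ hΓ S p hp).2.2.1 _ _ hn h1

/-- the figure eight of two boundary leaves is not peripheral -/
theorem CLK_EP (hB8 : BD8_stmt) (hCF : CLF_stmt) (hN5 : PN5_stmt) {Γ : Subgroup SL(2, ℝ)}
    {S : LeafSystem Γ} {z₀ : ℍ} (hz : S.OffPt z₀) {u v : SL(2, ℝ)} {p q : Bd × Bd}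
    (hu : u ∈ Γ) (hv : v ∈ Γ) (h1 : S.SamePl z₀ (u • z₀)) (h2 : S.SamePl z₀ (v • z₀))
    (hup : Attracts u p) (hvq : Attracts v q) (hpq : Facing p q) : u⁻¹ * v ∈ S.EP z₀ := by
  obtain ⟨s, hs1, hs2⟩ := (hCF u v p q hup hvq hpq).2
  have e1 : u⁻¹ * v = u⁻¹ * (u * v⁻¹)⁻¹ * (u⁻¹)⁻¹ := by group
  have h3 : Attracts (u * v⁻¹)⁻¹ (s.2, s.1) := hB8.2.2.2.2.2.2.1 _ _ hs1
  have h4 := hB8.2.2.2.2.2.1 _ u⁻¹ _ h3
  rw [← e1] at h4
  refine ⟨Γ.mul_mem (Γ.inv_mem hu) hv, ?_, ?_, ?_⟩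
  · exact CLK_stab_mul hN5 hz (Γ.inv_mem hu) hv (CLK_stab_inv hN5 hu h1) h2
  · exact CLK_not_one ((hB8.2.2.2.1 _).2 ⟨_, h4⟩)
  · intro t ht htS
    have h5 := hB8.2.2.1 _ _ _ ht h4
    have h6 := S.swap _ htS
    rw [h5] at h6
    simp only at h6
    have h7 := S.inv u hu _ h6
    simp only [smul_inv_smul] at h7
    exact S.unlinked _ h7 _ h6 hs2

/-! ### numerical part -/

theorem CLK_coth {l : ℝ} (hl : 0 < l) {k : ℕ} (hk : 2 ≤ k) :
    Real.sinh (l / 2) * (1 + Real.cosh (k * l / 2)) ≤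
      Real.cosh (l / 2) * Real.sinh (k * l / 2) := by
  have hk' : (2 : ℝ) ≤ k := by exact_mod_cast hk
  set t := (k : ℝ) * l / 2 with ht
  have e1 : t = 2 * (t / 2) := by ring
  have h1 : 0 ≤ Real.sinh (t / 2 - l / 2) := by
    rw [Real.sinh_nonneg_iff]
    nlinarith
  rw [Real.sinh_sub] at h1
  have hc : Real.cosh t = 2 * Real.cosh (t / 2) ^ 2 - 1 := by
    rw [e1, Real.cosh_two_mul]
    have := Real.cosh_sq (t / 2)
    have e2 : 2 * (t / 2) / 2 = t / 2 := by ring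
    rw [e2]
    linarith
  have hs : Real.sinh t = 2 * Real.sinh (t / 2) * Real.cosh (t / 2) := by
    rw [e1, Real.sinh_two_mul]
    have e2 : 2 * (t / 2) / 2 = t / 2 := by ring
    rw [e2]
  rw [hc, hs]
  have hcp := Real.cosh_pos (t / 2)
  nlinarith [mul_nonneg h1 hcp.le]

theorem CLK_num {ca cx u v cy sy V : ℝ} (ha : 1 ≤ ca) (hax : ca ≤ cx) (hu : 1 ≤ u)
    (hv : 0 < v) (hsy : v ≤ sy) (hcoth : v * (1 + cy) ≤ u * sy)
    (hcy : 2 * u ^ 2 - 1 ≤ cy) (hV : sy * V = v * (cy * ca + cx))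
    (hle : 2 * ca * cx + cy ≤ u * ca + V) : False := by
  have hs : 0 < sy := lt_of_lt_of_le hv hsy
  have h1 : sy * (2 * ca * cx + cy) ≤ sy * (u * ca) + v * (cy * ca + cx) := by
    have := mul_le_mul_of_nonneg_left hle hs.le
    have e2 : sy * (u * ca + V) = sy * (u * ca) + sy * V := by ring
    rw [e2, hV] at this
    linarith
  have h2 : 0 ≤ (cx - ca) * (2 * ca * sy - v) := by
    apply mul_nonneg (by linarith)
    nlinarith
  have h3 : ca * (v * (1 + cy)) ≤ ca * (u * sy) := mul_le_mul_of_nonneg_left hcoth (by linarith)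
  have h4 : sy * (2 * ca ^ 2 + cy - 2 * u * ca) ≤ 0 := by nlinarith
  have h5 : 0 < 2 * ca ^ 2 + cy - 2 * u * ca := by nlinarith [sq_nonneg (ca - u)]
  nlinarith

/-! ### the main case -/

theorem CLK_core (hB2 : BD2_stmt) (hB3 : BD3_stmt) (hB4 : BD4_stmt) (hB6 : BD6_stmt)
    (hB8 : BD8_stmt) (hB10 : BD10_stmt) (hG1 : GM1_stmt) (hN2 : PN2_stmt) (hN3 : PN3_stmt)
    (hN4 : PN4_stmt) (hN5 : PN5_stmt) (hCF : CLF_stmt) {Γ : Subgroup SL(2, ℝ)}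
    (hΓ : IsClosedSurfaceGroup Γ) {S : LeafSystem Γ} {z₀ : ℍ} (hz : S.OffPt z₀)
    {a x y : SL(2, ℝ)} {A X Y : Bd × Bd} (ha : a ∈ Γ) (hx : x ∈ Γ) (hy : y ∈ Γ)
    (sa : S.SamePl z₀ (a • z₀)) (sx : S.SamePl z₀ (x • z₀))
    (haxy : a * x * y = 1) (hAL : A ∈ S.L) (hXL : X ∈ S.L) (hYL : Y ∈ S.L)
    (hA : S.Near A z₀) (hX : S.Near X z₀) (hY : S.Near Y z₀)
    (haA : Attracts a A) (hxX : Attracts x X) (hyY : Attracts y Y ∨ Attracts y (sw Y))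
    (hEP : a⁻¹ * x ∈ S.EP z₀) (hmin : ∀ δ ∈ S.EP z₀, |trc (a⁻¹ * x)| ≤ |trc δ|) :
    S.Hex A X Y := by
  have gA := hG1 Γ hΓ A (S.closed _ hAL)
  have gX := hG1 Γ hΓ X (S.closed _ hXL)
  have gY := hG1 Γ hΓ Y (S.closed _ hYL)
  have pA := CLK_stab_gen hG1 hN3 hN5 hΓ hAL hA
  have pX := CLK_stab_gen hG1 hN3 hN5 hΓ hXL hX
  have pY := CLK_stab_gen hG1 hN3 hN5 hΓ hYL hY
  obtain ⟨m, hm1, hm⟩ := CLK_power hB2 hB4 gA haA ha
  obtain ⟨n, hn1, hn⟩ := CLK_power hB2 hB4 gX hxX hx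
  -- the leaves are different
  have hAX : X ≠ A := by
    rintro rfl
    have f1 : (a⁻¹ * x) • X.1 = X.1 := by
      rw [mul_smul, hxX.2.1]; exact CLK_fix_inv haA.2.1
    have f2 : (a⁻¹ * x) • X.2 = X.2 := by
      rw [mul_smul, hxX.2.2.1]; exact CLK_fix_inv haA.2.2.1
    rcases hB8.2.2.2.2.1 _ _ _ haA.1 f1 f2 hEP.2.2.1 with h | h
    · exact hEP.2.2.2 _ h hXL
    · exact hEP.2.2.2 _ h (S.swap _ hXL)
  have cAX : S.CoPl A X := ((hN4 Γ hΓ S A hAL X hXL z₀ hA).1 hX).resolve_left hAX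
  have fAX := cAX.2.2.1
  obtain ⟨fy1, fy2⟩ := CLK_fix hyY
  have hdist : A.1 ≠ X.1 ∧ A.1 ≠ X.2 ∧ A.2 ≠ X.1 := by
    have e1 := hB4.1 _ _ _ fAX.1
    have e2 := hB4.1 _ _ _ fAX.2
    exact ⟨e2.1, fun h => e2.2.2 h.symm, e1.2.1⟩
  have hAY : Y ≠ A := by
    rintro rfl
    have hx' : x = a⁻¹ * y⁻¹ := by
      rw [← _root_.mul_inv_rev, eq_inv_iff_mul_eq_one]
      have h5 : a * (x * y) = 1 := by rw [← mul_assoc]; exact haxy
      have h6 : x * y = a⁻¹ := eq_inv_of_mul_eq_one_right h5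
      rw [← mul_assoc, h6, inv_mul_cancel]
    have f1 : x • Y.1 = Y.1 := by
      rw [hx', mul_smul, CLK_fix_inv fy1]; exact CLK_fix_inv haA.2.1
    rcases hB8.2.2.2.2.2.2.2 _ _ _ hxX f1 with h | h
    · exact hdist.1 h
    · exact hdist.2.1 h
  have hXY : Y ≠ X := by
    rintro rfl
    have ha' : a = y⁻¹ * x⁻¹ := by
      rw [← _root_.mul_inv_rev, eq_inv_iff_mul_eq_one, ← mul_assoc]
      exact haxy
    have f1 : a • Y.1 = Y.1 := by
      rw [ha', mul_smul, CLK_fix_inv hxX.2.1]; exact CLK_fix_inv fy1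
    rcases hB8.2.2.2.2.2.2.2 _ _ _ haA f1 with h | h
    · exact hdist.1 h.symm
    · exact hdist.2.2 h.symm
  have cAY : S.CoPl A Y := ((hN4 Γ hΓ S A hAL Y hYL z₀ hA).1 hY).resolve_left hAY
  have cXY : S.CoPl X Y := ((hN4 Γ hΓ S X hXL Y hYL z₀ hX).1 hY).resolve_left hXY
  have cYA : S.CoPl Y A := (hN2 Γ hΓ S).1 _ _ cAY
  have cYX : S.CoPl Y X := (hN2 Γ hΓ S).1 _ _ cXY
  have hlA := (hB8.2.1 _ _ _ gA.2.1 (hB6.1 A gA.2.1.1).choose_spec).2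
  have hlX := (hB8.2.1 _ _ _ gX.2.1 (hB6.1 X gX.2.1.1).choose_spec).2
  have hlY := (hB8.2.1 _ _ _ gY.2.1 (hB6.1 Y gY.2.1.1).choose_spec).2
  -- `m = n = 1`
  obtain ⟨C, hC, hCmn⟩ := (hCF _ _ _ _ gA.2.1 gX.2.1 fAX).1
  have hgam : |trc (a⁻¹ * x)| = 2 * (Real.cosh (m * len (gen Γ A) / 2) *
      Real.cosh (n * len (gen Γ X) / 2) + Real.sinh (m * len (gen Γ A) / 2) *
      Real.sinh (n * len (gen Γ X) / 2) * C) := by
    rw [← (hCmn m n hm1 hn1).2.2]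
    exact CLK_abs (CLK_mul (CLK_inv hm) hn)
  have hmono : ∀ (k : ℕ) (l : ℝ), 0 < l → 2 ≤ k →
      Real.cosh (l / 2) < Real.cosh (k * l / 2) ∧ 0 < Real.sinh (l / 2) ∧
      Real.sinh (l / 2) < Real.sinh (k * l / 2) := by
    intro k l hl hk
    have hk' : (2 : ℝ) ≤ k := by exact_mod_cast hk
    refine ⟨?_, ?_, ?_⟩
    · rw [Real.cosh_lt_cosh, abs_of_pos (by positivity), abs_of_pos (by positivity)]
      nlinarith
    · rw [Real.sinh_pos_iff]; positivity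
    · rw [Real.sinh_lt_sinh]
      nlinarith
  have hsn : ∀ (k : ℕ) (l : ℝ), 0 < l → 1 ≤ k → 0 < Real.sinh (k * l / 2) := by
    intro k l hl hk
    have hk' : (1 : ℝ) ≤ k := by exact_mod_cast hk
    rw [Real.sinh_pos_iff]
    positivity
  have hm2 : m = 1 := by
    by_contra hne
    have hm3 : 2 ≤ m := by omega
    have h1 : (gen Γ A)⁻¹ * x ∈ S.EP z₀ := by
      exact CLK_EP hB8 hCF hN5 hz gA.1 hx pA sx gA.2.1 hxX fAX
    have h2 := hmin _ h1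
    have h3 : |trc ((gen Γ A)⁻¹ * x)| = 2 * (Real.cosh (len (gen Γ A) / 2) *
        Real.cosh (n * len (gen Γ X) / 2) + Real.sinh (len (gen Γ A) / 2) *
        Real.sinh (n * len (gen Γ X) / 2) * C) := by
      have := (hCmn 1 n le_rfl hn1).2.2
      rw [pow_one, Nat.cast_one, one_mul] at this
      rw [← this]
      exact CLK_abs (CLK_mul (CLK_refl _) hn)
    rw [h3, hgam] at h2
    obtain ⟨k1, k2, k3⟩ := hmono m _ hlA hm3
    have k4 := hsn n _ hlX hn1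
    have k5 := Real.cosh_pos ((n : ℝ) * len (gen Γ X) / 2)
    nlinarith [mul_lt_mul_of_pos_right k1 k5, mul_lt_mul_of_pos_right k3
      (mul_pos k4 (lt_trans one_pos hC))]
  have hn2 : n = 1 := by
    by_contra hne
    have hn3 : 2 ≤ n := by omega
    have h1 : a⁻¹ * gen Γ X ∈ S.EP z₀ :=
      CLK_EP hB8 hCF hN5 hz ha gX.1 sa pX haA gX.2.1 fAX
    have h2 := hmin _ h1
    have h3 : |trc (a⁻¹ * gen Γ X)| = 2 * (Real.cosh (m * len (gen Γ A) / 2) *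
        Real.cosh (len (gen Γ X) / 2) + Real.sinh (m * len (gen Γ A) / 2) *
        Real.sinh (len (gen Γ X) / 2) * C) := by
      have := (hCmn m 1 hm1 le_rfl).2.2
      rw [pow_one, Nat.cast_one, one_mul] at this
      rw [← this]
      exact CLK_abs (CLK_mul (CLK_inv hm) (CLK_refl _))
    rw [h3, hgam] at h2
    obtain ⟨k1, k2, k3⟩ := hmono n _ hlX hn3
    have k4 := hsn m _ hlA hm1
    have k5 := Real.cosh_pos ((m : ℝ) * len (gen Γ A) / 2)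
    nlinarith [mul_lt_mul_of_pos_left k1 k5, mul_lt_mul_of_pos_left k3
      (mul_pos k4 (lt_trans one_pos hC))]
  subst hm2
  subst hn2
  rw [pow_one] at hm hn
  simp only [Nat.cast_one, one_mul] at hgam
  -- `y` attracts `Y`
  have hxy : x * y = a⁻¹ := by
    have h5 : a * (x * y) = 1 := by rw [← mul_assoc]; exact haxy
    exact eq_inv_of_mul_eq_one_right h5
  have hy' : y = (a * x)⁻¹ := eq_inv_of_mul_eq_one_right haxy
  have hyY' : Attracts y Y := by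
    rcases hyY with h | h
    · exact h
    exfalso
    have h1 : Attracts y⁻¹ Y := hB8.2.2.2.2.2.2.1 _ _ h
    obtain ⟨s, hs1, hs2⟩ := (hCF x y⁻¹ X Y hxX h1 cXY.2.2.1).2
    rw [inv_inv, hxy] at hs1
    have h2 : Attracts a⁻¹ (sw A) := hB8.2.2.2.2.2.2.1 _ _ haA
    have h3 := hB8.2.2.1 _ _ _ hs1 h2
    have h4 := S.swap _ hAL
    have h5 := S.inv x⁻¹ (Γ.inv_mem hx) _ h4
    rw [h3] at hs2
    exact S.unlinked _ h4 _ h5 hs2
  obtain ⟨k, hk1, hk⟩ := CLK_power hB2 hB4 gY hyY' hy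
  -- the order
  have hYne : A.1 ≠ Y.1 ∧ X.1 ≠ Y.1 := by
    have e1 := hB4.1 _ _ _ cAY.2.2.1.2
    have e2 := hB4.1 _ _ _ cXY.2.2.1.2
    exact ⟨e1.1, e2.1⟩
  have hord : Cyc A.1 X.1 Y.1 := by
    rcases hB4.2.2.2.1 A.1 X.1 Y.1 hdist.1 hYne.2 (fun h => hYne.1 h.symm) with h | h
    · exact h
    exfalso
    have e1 : y⁻¹ • X.1 = a • X.1 := by
      rw [hy', inv_inv, mul_smul, hxX.2.1]
    obtain ⟨φ, -, -, g3, g4, -⟩ := hB3 Y.2
    have hφ : HX8_P Y.2 φ := ⟨g3, g4⟩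
    obtain ⟨u1, u2, he, u3, u4⟩ := HX8_face hB4 hφ (p := X) (e := Y.1) cYX.2.2.1
    obtain ⟨v1, v2, -, v3, v4⟩ := HX8_face hB4 hφ (p := A) (e := Y.1) cYA.2.2.1
    have h1 : Cyc Y.2 X.1 Y.1 := by
      rw [hφ.1 _ _ u1 he]
      linarith
    have h2 : Cyc Y.2 (y⁻¹ • X.1) Y.1 := by
      have := (hB2 y⁻¹ Y.2 X.1 Y.1).2 h1
      rwa [CLK_fix_inv hyY'.2.1, CLK_fix_inv hyY'.2.2.1] at this
    have h3 := hyY'.2.2.2 _ h2
    rw [smul_inv_smul, e1] at h3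
    -- h3 : Cyc Y.2 (a • X.1) X.1
    have h4 : Cyc A.2 X.1 A.1 := hB4.2.1 _ _ _ fAX.1
    have h5 := haA.2.2.2 _ h4
    have w1 : a • X.1 ≠ Y.2 := fun hh => (hB4.1 _ _ _ h3).1 hh.symm
    have r1 := (hφ.1 _ _ w1 u1).1 h3
    have r2 := (hφ.2 _ _ _ v1 he u1).1 h
    have r3 := (hφ.2 _ _ _ v2 u1 w1).1 h5
    rcases r2 with r2 | r2 | r2 <;> rcases r3 with r3 | r3 | r3 <;>
      linarith [r2.1, r2.2, r3.1, r3.2]
  -- `k = 1`
  have hEq : ∀ {g : SL(2, ℝ)}, |trc g⁻¹| = |trc g| := by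
    intro g
    rw [CLK_trc_inv]
  have t1 : trc (pos (gen Γ A) * pos (gen Γ X)) = - (2 * Real.cosh (k * len (gen Γ Y) / 2)) := by
    have h1 := hB10 _ _ _ _ _ _ gA.2.1 gX.2.1 hyY' fAX cXY.2.2.1 cYA.2.2.1 hord (by
      have := CLK_mul (CLK_mul (CLK_symm hm) (CLK_symm hn)) (CLK_refl y)
      rwa [haxy] at this)
    have h2 : |trc (pos (gen Γ A) * pos (gen Γ X))| = 2 * Real.cosh (k * len (gen Γ Y) / 2) := by
      rw [← CLK_trc_pow hB6 hB8 gY.2.1 k, ← CLK_abs hk, hy', hEq]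
      exact CLK_abs (CLK_mul (CLK_trans (CLK_pos _) (CLK_symm hm))
        (CLK_trans (CLK_pos _) (CLK_symm hn)))
    rw [abs_of_neg h1] at h2
    linarith
  have tA : |trc (gen Γ A)| = 2 * Real.cosh (len (gen Γ A) / 2) := by
    have := CLK_trc_pow hB6 hB8 gA.2.1 1
    rwa [pow_one, Nat.cast_one, one_mul] at this
  have tX : |trc (gen Γ X)| = 2 * Real.cosh (len (gen Γ X) / 2) := by
    have := CLK_trc_pow hB6 hB8 gX.2.1 1
    rwa [pow_one, Nat.cast_one, one_mul] at this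
  have hposY : pos y = pos (gen Γ Y ^ k) := CLK_pos_eq hk ((hB8.2.2.2.1 _).2 ⟨_, hyY'⟩)
  have t2 : trc (pos (gen Γ Y ^ k) * pos (gen Γ A)) = - (2 * Real.cosh (len (gen Γ X) / 2)) := by
    have h1 := hB10 _ _ _ _ _ _ hyY' gA.2.1 gX.2.1 cYA.2.2.1 fAX cXY.2.2.1
      (hB4.2.1 _ _ _ (hB4.2.1 _ _ _ hord)) (by
      have := CLK_mul (CLK_mul (CLK_refl y) (CLK_symm hm)) (CLK_symm hn)
      have e : y * a * x = 1 := by rw [hy']; group
      rwa [e] at this)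
    have h2 : |trc (pos y * pos (gen Γ A))| = 2 * Real.cosh (len (gen Γ X) / 2) := by
      have e : y * a = x⁻¹ := by rw [hy']; group
      rw [CLK_abs (CLK_mul (CLK_pos y) (CLK_trans (CLK_pos _) (CLK_symm hm))), e, hEq,
        CLK_abs hn, tX]
    rw [abs_of_neg h1] at h2
    rw [← hposY]
    linarith
  have t3 : trc (pos (gen Γ Y ^ k) * pos (gen Γ X)) = - (2 * Real.cosh (len (gen Γ A) / 2)) := by
    have h1 := hB10 _ _ _ _ _ _ gX.2.1 hyY' gA.2.1 cXY.2.2.1 cYA.2.2.1 fAX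
      (hB4.2.1 _ _ _ hord) (by
      have := CLK_mul (CLK_mul (CLK_symm hn) (CLK_refl y)) (CLK_symm hm)
      have e : x * y * a = 1 := by rw [hy']; group
      rwa [e] at this)
    have h2 : |trc (pos (gen Γ X) * pos y)| = 2 * Real.cosh (len (gen Γ A) / 2) := by
      rw [CLK_abs (CLK_mul (CLK_trans (CLK_pos _) (CLK_symm hn)) (CLK_pos y)), hxy, hEq,
        CLK_abs hm, tA]
    rw [abs_of_neg h1] at h2
    rw [← hposY, CLK_comm]
    linarith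
  have hk2 : k = 1 := by
    by_contra hne
    have hk3 : 2 ≤ k := by omega
    have q1 := (hCmn 1 1 le_rfl le_rfl).1
    rw [pow_one, pow_one, Nat.cast_one, one_mul, one_mul, t1] at q1
    obtain ⟨C2, hC2, hC2mn⟩ := (hCF _ _ _ _ gY.2.1 gA.2.1 cYA.2.2.1).1
    obtain ⟨C3, hC3, hC3mn⟩ := (hCF _ _ _ _ gY.2.1 gX.2.1 cYX.2.2.1).1
    have q2 := (hC2mn k 1 hk1 le_rfl).1
    have q3 := (hC3mn k 1 hk1 le_rfl).1
    rw [pow_one, t2, Nat.cast_one, one_mul] at q2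
    rw [pow_one, t3, Nat.cast_one, one_mul] at q3
    have m2 := hmin _ (CLK_EP hB8 hCF hN5 hz gY.1 gA.1 pY pA gY.2.1 gA.2.1 cYA.2.2.1)
    have m3 := hmin _ (CLK_EP hB8 hCF hN5 hz gY.1 gX.1 pY pX gY.2.1 gX.2.1 cYX.2.2.1)
    have r2 := (hC2mn 1 1 le_rfl le_rfl).2.2
    have r3 := (hC3mn 1 1 le_rfl le_rfl).2.2
    rw [pow_one, pow_one, Nat.cast_one, one_mul, one_mul] at r2 r3
    rw [r2, hgam] at m2
    rw [r3, hgam] at m3
    obtain ⟨k1, k2, k4⟩ := hmono k _ hlY hk3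
    have hcy : 2 * Real.cosh (len (gen Γ Y) / 2) ^ 2 - 1 ≤ Real.cosh (k * len (gen Γ Y) / 2) := by
      have e : 2 * Real.cosh (len (gen Γ Y) / 2) ^ 2 - 1 = Real.cosh (2 * (len (gen Γ Y) / 2)) := by
        rw [Real.cosh_two_mul]
        have := Real.cosh_sq (len (gen Γ Y) / 2)
        linarith
      rw [e, Real.cosh_le_cosh]
      have hk' : (2 : ℝ) ≤ k := by exact_mod_cast hk3
      rw [abs_of_pos (by positivity), abs_of_pos (by positivity)]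
      nlinarith
    have hco := CLK_coth hlY hk3
    have o1 := Real.one_le_cosh (len (gen Γ Y) / 2)
    have o2 := Real.one_le_cosh (len (gen Γ A) / 2)
    have o3 := Real.one_le_cosh (len (gen Γ X) / 2)
    generalize Real.cosh (len (gen Γ A) / 2) = ca at *
    generalize Real.cosh (len (gen Γ X) / 2) = cx at *
    generalize Real.sinh (len (gen Γ A) / 2) = sa' at *
    generalize Real.sinh (len (gen Γ X) / 2) = sx' at *
    generalize Real.cosh (k * len (gen Γ Y) / 2) = cy at *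
    generalize Real.sinh (k * len (gen Γ Y) / 2) = sy at *
    generalize Real.cosh (len (gen Γ Y) / 2) = u at *
    generalize Real.sinh (len (gen Γ Y) / 2) = v at *
    rcases le_total ca cx with hle | hle
    · refine CLK_num (ca := ca) (cx := cx) (u := u) (v := v) (cy := cy) (sy := sy)
        (V := v * sa' * C2) o2 hle o1 k2 k4.le hco hcy ?_ ?_
      · linear_combination (v / 2) * q2
      · linarith
    · refine CLK_num (ca := cx) (cx := ca) (u := u) (v := v) (cy := cy) (sy := sy)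
        (V := v * sx' * C3) o3 hle o1 k2 k4.le hco hcy ?_ ?_
      · linear_combination (v / 2) * q3
      · linarith
  subst hk2
  rw [pow_one] at hk
  refine ⟨cAX, cXY, cYA, hord, ?_⟩
  have := CLK_mul (CLK_mul (CLK_symm hm) (CLK_symm hn)) (CLK_symm hk)
  rwa [haxy] at this

theorem CLK (hB2 : BD2_stmt) (hB3 : BD3_stmt) (hB4 : BD4_stmt) (hB6 : BD6_stmt)
    (hB8 : BD8_stmt) (hB10 : BD10_stmt) (hG1 : GM1_stmt) (hN2 : PN2_stmt) (hN3 : PN3_stmt)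
    (hN4 : PN4_stmt) (hN5 : PN5_stmt) (hCD : CLD_stmt) (hCF : CLF_stmt) (hCI : CLI_stmt)
    (hCJ : CLJ_stmt) : CLK_stmt := by
  intro Γ hΓ S z₀ hmax hz
  obtain ⟨γ, hγ, hγm⟩ := hCD Γ hΓ (S.EP z₀) (fun γ h => h.1) (hCI Γ hΓ S z₀ hz)
  obtain ⟨a, x, y, ha, hx, hy, haxy, hγe, hty, sa, sx, sy, ⟨A, hA, hAL, haA⟩, ⟨X, hX, hXL, hxX⟩,
    ⟨Y, hY, hYL, hyY⟩⟩ := hCJ Γ hΓ S z₀ hmax hz γ ⟨hγ, hγm⟩
  subst hγe
  have hy' : y = (a * x)⁻¹ := eq_inv_of_mul_eq_one_right haxy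
  have hty' : |trc y| = |trc (a * x)| := by rw [hy', CLK_trc_inv]
  have hAX : X ≠ A := by
    rintro rfl
    obtain ⟨f1, f2⟩ := CLK_fix haA
    obtain ⟨f3, f4⟩ := CLK_fix hxX
    have f5 : (a⁻¹ * x) • X.1 = X.1 := by
      rw [mul_smul, f3]; exact CLK_fix_inv f1
    have f6 : (a⁻¹ * x) • X.2 = X.2 := by
      rw [mul_smul, f4]; exact CLK_fix_inv f2
    have hne : X.1 ≠ X.2 := by
      rcases haA with h | h
      · exact h.1
      · exact h.1.symm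
    rcases hB8.2.2.2.2.1 _ _ _ hne f5 f6 hγ.2.2.1 with h | h
    · exact hγ.2.2.2 _ h hXL
    · exact hγ.2.2.2 _ h (S.swap _ hXL)
  have cAX : S.CoPl A X := ((hN4 Γ hΓ S A hAL X hXL z₀ hA).1 hX).resolve_left hAX
  -- mixed signs are impossible
  have key : ∀ a x : SL(2, ℝ), Attracts a A → Attracts x X →
      |trc (a * x)| ≤ |trc (a⁻¹ * x)| := by
    intro a x h1 h2
    obtain ⟨C, hC, hCmn⟩ := (hCF _ _ _ _ h1 h2 cAX.2.2.1).1
    have q := hCmn 1 1 le_rfl le_rfl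
    rw [pow_one, pow_one, Nat.cast_one, one_mul, one_mul] at q
    have e1 : |trc (a * x)| = |trc (pos a * pos x)| :=
      (CLK_abs (CLK_mul (CLK_pos a) (CLK_pos x))).symm
    have hla := (hB8.2.1 _ _ _ h1 (hB6.1 A h1.1).choose_spec).2
    have hlx := (hB8.2.1 _ _ _ h2 (hB6.1 X h2.1).choose_spec).2
    have s1 : 0 < Real.sinh (len a / 2) := by
      rw [Real.sinh_pos_iff]; positivity
    have s2 : 0 < Real.sinh (len x / 2) := by
      rw [Real.sinh_pos_iff]; positivity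
    have c1 := Real.cosh_pos (len a / 2)
    have c2 := Real.cosh_pos (len x / 2)
    have s3 := mul_pos (mul_pos s1 s2) (lt_trans one_pos hC)
    have c3 := mul_pos c1 c2
    rw [e1, q.1, q.2.2, abs_le]
    constructor <;> linarith
  rcases haA with haA | haA <;> rcases hxX with hxX | hxX
  · exact ⟨A, X, Y, CLK_core hB2 hB3 hB4 hB6 hB8 hB10 hG1 hN2 hN3 hN4 hN5 hCF hΓ hz ha hx hy sa sx
      haxy hAL hXL hYL hA hX hY haA hxX hyY hγ hγm, hA⟩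
  · exfalso
    have h1 : Attracts x⁻¹ X := hB8.2.2.2.2.2.2.1 _ _ hxX
    have h2 := key _ _ haA h1
    have e1 : |trc (a⁻¹ * x⁻¹)| = |trc (a * x)| := by
      rw [← CLK_trc_inv (a⁻¹ * x⁻¹), CLK_comm a x]
      congr 2
      group
    have e2 : |trc (a * x⁻¹)| = |trc (a⁻¹ * x)| := by
      rw [← CLK_trc_inv (a * x⁻¹), CLK_comm a⁻¹ x]
      congr 2
      group
    rw [e1, e2, ← hty'] at h2
    linarith
  · exfalso
    have h1 : Attracts a⁻¹ A := hB8.2.2.2.2.2.2.1 _ _ haA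
    have h2 := key _ _ h1 hxX
    rw [inv_inv, ← hty'] at h2
    linarith
  · have h1 : Attracts a⁻¹ A := hB8.2.2.2.2.2.2.1 _ _ haA
    have h2 : Attracts x⁻¹ X := hB8.2.2.2.2.2.2.1 _ _ hxX
    have e1 : x⁻¹ * a⁻¹ * y⁻¹ = 1 := by rw [hy']; group
    have e3 : x⁻¹⁻¹ * a⁻¹ = a * (a⁻¹ * x) * a⁻¹ := by group
    have e2 : trc (x⁻¹⁻¹ * a⁻¹) = trc (a⁻¹ * x) := by rw [e3, CLK_conj]
    have hEP : x⁻¹⁻¹ * a⁻¹ ∈ S.EP z₀ := by
      rw [e3]
      have i1 := CLK_stab_inv hN5 ha sa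
      have m1 : a⁻¹ * x ∈ Γ := Γ.mul_mem (Γ.inv_mem ha) hx
      refine ⟨Γ.mul_mem (Γ.mul_mem ha m1) (Γ.inv_mem ha), ?_, ?_, ?_⟩
      · exact CLK_stab_mul hN5 hz (Γ.mul_mem ha m1) (Γ.inv_mem ha)
          (CLK_stab_mul hN5 hz ha m1 sa hγ.2.1) i1
      · intro h
        apply hγ.2.2.1
        have := CLK_mul (CLK_mul (CLK_refl a⁻¹) h) (CLK_refl a)
        have e4 : a⁻¹ * (a * (a⁻¹ * x) * a⁻¹) * a = a⁻¹ * x := by group
        rw [e4] at this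
        simpa using this
      · intro p hp hpS
        have h5 := hB8.2.2.2.2.2.1 _ a⁻¹ _ hp
        have e4 : a⁻¹ * (a * (a⁻¹ * x) * a⁻¹) * a⁻¹⁻¹ = a⁻¹ * x := by group
        rw [e4] at h5
        exact hγ.2.2.2 _ h5 (S.inv _ (Γ.inv_mem ha) _ hpS)
    have hY' : Attracts y⁻¹ Y ∨ Attracts y⁻¹ (sw Y) := by
      rcases hyY with h | h
      · exact Or.inr (hB8.2.2.2.2.2.2.1 _ _ h)
      · exact Or.inl (hB8.2.2.2.2.2.2.1 _ _ h)
    exact ⟨X, A, Y, CLK_core hB2 hB3 hB4 hB6 hB8 hB10 hG1 hN2 hN3 hN4 hN5 hCF hΓ hz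
      (Γ.inv_mem hx) (Γ.inv_mem ha) (Γ.inv_mem hy) (CLK_stab_inv hN5 hx sx)
      (CLK_stab_inv hN5 ha sa) e1 hXL hAL hYL hX hA hY h2 h1 hY' hEP (by rw [e2]; exact hγm), hX⟩

end AdSBend
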