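import Pool.Agent.helper69.AD.GS5
import Pool.Agent.helper99.AG.CLK

open scoped MatrixGroups LinearAlgebra.Projectivization
open Matrix UpperHalfPlane
open Pool.Agent.helper73.AD (PS Arc Word sg AData Family PreFamily Cone bs)

namespace AdSBend

open LeafSystem

theorem FB5_seam (hH1 : HX1_stmt) {Γ : Subgroup SL(2, ℝ)} (hΓ : IsClosedSurfaceGroup Γ)
    {S : LeafSystem Γ} {γ : SL(2, ℝ)} (hγ : γ ∈ Γ) {p u : Bd × Bd} (h : S.Seam p u) :
    S.Seam (ga γ p) (ga γ u) := by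
  obtain ⟨r, h | h⟩ := h
  · exact ⟨ga γ r, Or.inl ((hH1 Γ hΓ S).2.2.2.1 γ hγ _ _ _ h)⟩
  · exact ⟨ga γ r, Or.inr ((hH1 Γ hΓ S).2.2.2.1 γ hγ _ _ _ h)⟩

theorem FB5_alg (hA : FA0_stmt) {F G F₀ G₀ c : SL(2, ℝ)} {s s' t : ℝ}
    (h1 : PEq F (c * F₀ * Dm s)) (h2 : PEq G (c * G₀ * Dm s'))
    (h3 : PEq F₀ (G₀ * Rm * Dm t)) : PEq F (G * Rm * Dm (t + (s + s'))) := by
  obtain ⟨a1, a2, a3, -, -, -, -, -, a9, -⟩ := hA
  have e1 : PEq (c * G₀) (G * Dm (-s')) := by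
    have := CLK_mul h2 (CLK_refl (Dm (-s')))
    have e : c * G₀ * Dm s' * Dm (-s') = c * G₀ := by
      rw [mul_assoc, a1, add_neg_cancel, a2, mul_one]
    rw [e] at this
    exact CLK_symm this
  have e2 : PEq (c * F₀ * Dm s) (c * (G₀ * Rm * Dm t) * Dm s) :=
    CLK_mul (CLK_mul (CLK_refl c) h3) (CLK_refl _)
  have e3 : c * (G₀ * Rm * Dm t) * Dm s = (c * G₀) * (Rm * Dm (t + s)) := by
    rw [← a1]
    simp only [mul_assoc]
  have e4 : PEq ((c * G₀) * (Rm * Dm (t + s))) ((G * Dm (-s')) * (Rm * Dm (t + s))) :=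
    CLK_mul e1 (CLK_refl _)
  have e5 : (G * Dm (-s')) * (Rm * Dm (t + s)) = G * Rm * Dm (t + (s + s')) := by
    have e6 : t + (s + s') = s' + (t + s) := by ring
    rw [e6, ← a1 s' (t + s)]
    have e7 : Dm (-s') * Rm = Rm * Dm s' := (a9 s').symm
    calc (G * Dm (-s')) * (Rm * Dm (t + s)) = G * (Dm (-s') * Rm) * Dm (t + s) := by
          simp only [mul_assoc]
      _ = G * Rm * (Dm s' * Dm (t + s)) := by rw [e7]; simp only [mul_assoc]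
  rw [e3] at e2
  rw [e5] at e4
  exact CLK_trans h1 (CLK_trans e2 e4)

theorem FB5_swap (hA : FA0_stmt) {F G : SL(2, ℝ)} {t : ℝ} (h : PEq F (G * Rm * Dm t)) :
    PEq G (F * Rm * Dm t) := by
  obtain ⟨a1, a2, a3, -, -, -, a7, a8, a9, -⟩ := hA
  have h1 : PEq (F * Rm * Dm t) ((G * Rm * Dm t) * Rm * Dm t) :=
    CLK_mul (CLK_mul h (CLK_refl _)) (CLK_refl _)
  have e : (G * Rm * Dm t) * Rm * Dm t = -G := by
    have e7 : Rm * Dm t = Dm (-t) * Rm := a9 t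
    calc (G * Rm * Dm t) * Rm * Dm t = G * Rm * (Dm t * (Rm * Dm t)) := by
          simp only [mul_assoc]
      _ = G * Rm * (Dm t * Dm (-t) * Rm) := by rw [e7]; simp only [mul_assoc]
      _ = G * (Rm * Rm) := by rw [a1, add_neg_cancel, a2, one_mul, mul_assoc]
      _ = -G := by rw [a7, mul_neg, mul_one]
  rw [e] at h1
  refine CLK_symm (CLK_trans h1 ?_)
  exact Or.inr rfl

theorem FB5 (hH1 : HX1_stmt) (hA : FA0_stmt) (hF1 : FB1_stmt) (hF2 : FB2_stmt)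
    (hF4 : FB4_stmt) : FB5_stmt := by
  intro Γ hΓ S hS J D p u v hp hu hv
  set j := D.cls p with hj
  have hPj := D.memP j
  have hsp : sw p ∈ S.L := S.swap _ hp
  obtain ⟨γ, hγ, hcase⟩ := D.cls_inj (D.P j) hPj p hp (D.clsP j)
  rcases hcase with hcase | hcase
  · -- `p = ga γ (P j)`
    have hswp : sw p = ga γ (sw (D.P j)) := by rw [hcase]
    have s1 : S.Seam p (ga γ (D.U j)) := by
      have := FB5_seam hH1 hΓ hγ (D.seamU j)
      rwa [← hcase] at this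
    have s2 : S.Seam (sw p) (ga γ (D.V j)) := by
      have := FB5_seam hH1 hΓ hγ (D.seamV j)
      rwa [← hswp] at this
    obtain ⟨k1, hk1⟩ := hF2 Γ hΓ S hS p (ga γ (D.U j)) u s1 hu
    obtain ⟨k2, hk2⟩ := hF2 Γ hΓ S hS (sw p) (ga γ (D.V j)) v s2 hv
    refine ⟨k1 + k2, ?_⟩
    intro r z hr hz F G hF hG
    obtain ⟨b1, b2, b3, b4, b5⟩ := hF1 Γ hΓ S r hr
    obtain ⟨F₀, hF₀⟩ := b1 _ _ (D.seamU j)
    obtain ⟨G₀, hG₀⟩ := b1 _ _ (D.seamV j)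
    have c1 := b3 γ hγ _ _ _ (D.seamU j) hF₀
    have c2 := b3 γ hγ _ _ _ (D.seamV j) hG₀
    rw [← hcase] at c1
    rw [← hswp] at c2
    have d1 := hk1 r hr _ _ c1 hF
    have d2 := hk2 r hr _ _ c2 hG
    have d3 := hz.2 j F₀ G₀ hF₀ hG₀
    have l1 : z.1 j = len (r (gen Γ p)) := ((hF4 Γ hΓ S J D r hr).2.2.1 z hz).2 p hp
    have l2 : len (r (gen Γ (sw p))) = len (r (gen Γ p)) := (b5 p hp).2.1
    rw [l2, ← l1] at d2
    rw [← l1] at d1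
    have := FB5_alg hA d1 d2 d3
    have e : z.2 j + ((k1 + k2 : ℤ) / 2 : ℝ) * z.1 j =
        z.2 j + (k1 * (z.1 j / 2) + k2 * (z.1 j / 2)) := by
      push_cast
      ring
    rw [e]
    exact this
  · -- `p = ga γ (sw (P j))`
    have hswp : sw p = ga γ (D.P j) := by rw [hcase]
    have s1 : S.Seam p (ga γ (D.V j)) := by
      have := FB5_seam hH1 hΓ hγ (D.seamV j)
      rwa [← hcase] at this
    have s2 : S.Seam (sw p) (ga γ (D.U j)) := by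
      have := FB5_seam hH1 hΓ hγ (D.seamU j)
      rwa [← hswp] at this
    obtain ⟨k1, hk1⟩ := hF2 Γ hΓ S hS p (ga γ (D.V j)) u s1 hu
    obtain ⟨k2, hk2⟩ := hF2 Γ hΓ S hS (sw p) (ga γ (D.U j)) v s2 hv
    refine ⟨k1 + k2, ?_⟩
    intro r z hr hz F G hF hG
    obtain ⟨b1, b2, b3, b4, b5⟩ := hF1 Γ hΓ S r hr
    obtain ⟨F₀, hF₀⟩ := b1 _ _ (D.seamU j)
    obtain ⟨G₀, hG₀⟩ := b1 _ _ (D.seamV j)
    have c1 := b3 γ hγ _ _ _ (D.seamU j) hF₀
    have c2 := b3 γ hγ _ _ _ (D.seamV j) hG₀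
    rw [← hswp] at c1
    rw [← hcase] at c2
    have d1 := hk1 r hr _ _ c2 hF
    have d2 := hk2 r hr _ _ c1 hG
    have d3 := FB5_swap hA (hz.2 j F₀ G₀ hF₀ hG₀)
    have l1 : z.1 j = len (r (gen Γ p)) := ((hF4 Γ hΓ S J D r hr).2.2.1 z hz).2 p hp
    have l2 : len (r (gen Γ (sw p))) = len (r (gen Γ p)) := (b5 p hp).2.1
    rw [l2, ← l1] at d2
    rw [← l1] at d1
    have := FB5_alg hA d1 d2 d3
    have e : z.2 j + ((k1 + k2 : ℤ) / 2 : ℝ) * z.1 j =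
        z.2 j + (k1 * (z.1 j / 2) + k2 * (z.1 j / 2)) := by
      push_cast
      ring
    rw [e]
    exact this

end AdSBend
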