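import Pool.Agent.helper69.AD.GS5
import Pool.Agent.helper99.AG.CLK

open scoped MatrixGroups LinearAlgebra.Projectivization
open Matrix UpperHalfPlane

namespace AdSBend

open LeafSystem

theorem FD3_mul (g h : SL(2, ℝ)) (i j : Fin 2) :
    (g * h).1 i j = g.1 i 0 * h.1 0 j + g.1 i 1 * h.1 1 j := by
  rw [Matrix.SpecialLinearGroup.coe_mul, Matrix.mul_apply, Fin.sum_univ_two]

theorem FD3_ratio (R : SL(2, ℝ)) (hR : PosMat R) : ∃ C : ℝ, 1 ≤ C ∧
    ∀ i j k l, R.1 i j ≤ C * R.1 k l := by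
  have hpos : ∀ i j, 0 < R.1 i j := hR
  set M := R.1 0 0 + R.1 0 1 + R.1 1 0 + R.1 1 1 with hM
  set m := min (min (R.1 0 0) (R.1 0 1)) (min (R.1 1 0) (R.1 1 1)) with hm
  have hm0 : 0 < m := by
    simp only [hm, lt_min_iff]
    exact ⟨⟨hpos _ _, hpos _ _⟩, hpos _ _, hpos _ _⟩
  have hle : ∀ k l, m ≤ R.1 k l := by
    intro k l
    fin_cases k <;> fin_cases l <;> simp [hm]
  have hge : ∀ i j, R.1 i j ≤ M := by
    intro i j
    have h1 := hpos 0 0
    have h2 := hpos 0 1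
    have h3 := hpos 1 0
    have h4 := hpos 1 1
    fin_cases i <;> fin_cases j <;> simp [hM] <;> linarith
  refine ⟨M / m, ?_, ?_⟩
  · rw [one_le_div hm0]
    exact (hle 0 0).trans (hge 0 0)
  · intro i j k l
    calc R.1 i j ≤ M := hge i j
      _ = M / m * m := by field_simp
      _ ≤ M / m * R.1 k l := by
        apply mul_le_mul_of_nonneg_left (hle k l)
        exact div_nonneg ((hpos 0 0).le.trans (hge 0 0)) hm0.le

theorem FD3_fst (R R' : SL(2, ℝ)) (hR : PosMat R) (hR' : PosMat R') : ∃ C : ℝ, 0 < C ∧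
    (∀ i j k l, R.1 i j ≤ C * R.1 k l) ∧
    ∀ X : SL(2, ℝ), (∀ i j, 0 ≤ X.1 i j) → ∀ i j k l,
      (R * X * R').1 i j ≤ C * (R * X * R').1 k l := by
  obtain ⟨C, hC, h1⟩ := FD3_ratio R hR
  obtain ⟨C', hC', h2⟩ := FD3_ratio R' hR'
  refine ⟨C * C', by positivity, ?_, ?_⟩
  · intro i j k l
    calc R.1 i j ≤ C * R.1 k l := h1 i j k l
      _ ≤ (C * C') * R.1 k l := by
        have := hR k l
        apply mul_le_mul_of_nonneg_right _ this.le
        nlinarith
  · intro X hX i j k l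
    have key : ∀ a b, R.1 i a * X.1 a b * R'.1 b j ≤ C * C' * (R.1 k a * X.1 a b * R'.1 b l) := by
      intro a b
      have e1 := h1 i a k a
      have e2 := h2 b j b l
      have e3 := hX a b
      have p1 := hR i a
      have p2 := hR k a
      have p3 := hR' b j
      have p4 := hR' b l
      calc R.1 i a * X.1 a b * R'.1 b j ≤ (C * R.1 k a) * X.1 a b * (C' * R'.1 b l) := by
            apply mul_le_mul
            · exact mul_le_mul_of_nonneg_right e1 e3
            · exact e2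
            · exact p3.le
            · have : 0 ≤ C * R.1 k a := by nlinarith
              positivity
        _ = C * C' * (R.1 k a * X.1 a b * R'.1 b l) := by ring
    simp only [FD3_mul]
    have k1 := key 0 0
    have k2 := key 0 1
    have k3 := key 1 0
    have k4 := key 1 1
    nlinarith [k1, k2, k3, k4]

theorem FD3_num1 {x y s : ℝ} (hs : 0 < s) (hy : 0 < y) (h : s ^ 2 = x ^ 2 + y) :
    1 - x / s ≤ 2 ∧ (0 < x → 1 - x / s ≤ y / (2 * x ^ 2)) ∧ y / (2 * s ^ 2) ≤ 1 - |x| / s := by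
  have hxs : |x| < s := by
    have : x ^ 2 < s ^ 2 := by linarith
    exact abs_lt_of_sq_lt_sq this hs.le
  have hx1 := abs_lt.1 hxs
  refine ⟨?_, ?_, ?_⟩
  · have : -1 ≤ x / s := by
      rw [le_div_iff₀ hs]
      linarith
    linarith
  · intro hx
    have e1 : 1 - x / s = (s - x) / s := by field_simp
    rw [e1, div_le_div_iff₀ hs (by positivity)]
    have e2 : y = (s - x) * (s + x) := by nlinarith
    rw [e2]
    have h3 : 0 ≤ s - x := by linarith
    nlinarith [mul_nonneg h3 (mul_nonneg hx.le h3), mul_nonneg h3 h3, mul_nonneg h3 hs.le,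
      mul_nonneg (mul_nonneg h3 h3) hs.le]
  · have e1 : 1 - |x| / s = (s - |x|) / s := by field_simp
    rw [e1, div_le_div_iff₀ (by positivity) hs]
    have e2 : y = (s - |x|) * (s + |x|) := by
      have : |x| ^ 2 = x ^ 2 := sq_abs x
      nlinarith
    rw [e2]
    have h3 : 0 ≤ s - |x| := by linarith
    have h4 : 0 ≤ |x| := abs_nonneg x
    nlinarith [mul_nonneg (mul_nonneg h3 h3) hs.le]

/-- bounds for the coordinates of one crossing; `E = exp (T / 2)` -/
theorem FD3_num2 {a b c d C E s : ℝ} (ha : 0 < a) (hb : 0 < b) (hc : 0 < c) (hd : 0 < d)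
    (hC : 0 < C) (h1 : d ≤ C * a) (h2 : b ≤ C * a) (h3 : c ≤ C * a)
    (hE : 0 < E) (hs : 0 < s) (h : s ^ 2 = (a * E - d / E) ^ 2 + 4 * b * c) :
    1 - (a * E - d / E) / s ≤ (8 * C ^ 2 + 4 * C) / E ^ 2 := by
  set x := a * E - d / E with hx
  obtain ⟨n1, n2, -⟩ := FD3_num1 (x := x) (y := 4 * b * c) hs (by positivity) h
  by_cases hcase : 2 * C ≤ E ^ 2
  · have hxa : a * E / 2 ≤ x := by
      have : d / E ≤ a * E / 2 := by
        rw [div_le_div_iff₀ hE (by norm_num)]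
        nlinarith
      rw [hx]
      linarith
    have hx0 : 0 < x := lt_of_lt_of_le (by positivity) hxa
    refine (n2 hx0).trans ?_
    have hx2 : a ^ 2 * E ^ 2 / 4 ≤ x ^ 2 := by
      have := mul_self_le_mul_self (by positivity) hxa
      nlinarith
    have hbc : b * c ≤ C ^ 2 * a ^ 2 := by
      calc b * c ≤ (C * a) * (C * a) := mul_le_mul h2 h3 hc.le (by positivity)
        _ = C ^ 2 * a ^ 2 := by ring
    rw [div_le_div_iff₀ (by positivity) (by positivity)]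
    have p1 : 0 < E ^ 2 := by positivity
    have q1 : 4 * b * c * E ^ 2 ≤ 4 * (C ^ 2 * a ^ 2) * E ^ 2 := by nlinarith
    have q2 : (8 * C ^ 2) * (2 * (a ^ 2 * E ^ 2 / 4)) ≤ (8 * C ^ 2 + 4 * C) * (2 * x ^ 2) := by
      have r1 : (8 * C ^ 2) * (2 * (a ^ 2 * E ^ 2 / 4)) ≤ (8 * C ^ 2) * (2 * x ^ 2) := by
        apply mul_le_mul_of_nonneg_left _ (by positivity)
        linarith
      have r2 : 0 ≤ 4 * C * (2 * x ^ 2) := by positivity
      nlinarith
    nlinarith
  · push Not at hcase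
    refine n1.trans ?_
    rw [le_div_iff₀ (by positivity)]
    nlinarith [sq_nonneg C]

theorem FD3_num3 {a b c d C E s : ℝ} (ha : 0 < a) (hb : 0 < b) (hc : 0 < c) (hd : 0 < d)
    (hC : 0 < C) (h1 : d ≤ C * a) (h2 : b ≤ C * a) (h3 : c ≤ C * a)
    (h4 : a ≤ C * b) (h5 : a ≤ C * c) (hE : 0 < E) (hs : 0 < s)
    (h : s ^ 2 = (a * E - d / E) ^ 2 + 4 * b * c) {m : ℝ} (hm : 0 < m) (hm1 : m * E ^ 2 ≤ 1)
    (hm2 : m ≤ E ^ 2) :
    2 / (C ^ 2 * (1 + 5 * C ^ 2)) * m ≤ 1 - |(a * E - d / E)| / s := by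
  set x := a * E - d / E with hx
  obtain ⟨-, -, n3⟩ := FD3_num1 (x := x) (y := 4 * b * c) hs (by positivity) h
  refine le_trans ?_ n3
  have hm0 : m ≤ 1 := by
    by_contra hcon
    push Not at hcon
    nlinarith
  -- upper bound for `s ^ 2 * m`
  have hx2 : x ^ 2 * m ≤ a ^ 2 + C ^ 2 * a ^ 2 := by
    have e1 : x ^ 2 ≤ a ^ 2 * E ^ 2 + d ^ 2 / E ^ 2 := by
      rw [hx]
      have : (a * E - d / E) ^ 2 = a ^ 2 * E ^ 2 + d ^ 2 / E ^ 2 - 2 * (a * d) := by
        field_simp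
        ring
      rw [this]
      nlinarith [mul_pos ha hd]
    have e2 : a ^ 2 * E ^ 2 * m ≤ a ^ 2 := by nlinarith [sq_nonneg a, sq_pos_of_pos ha]
    have e3 : d ^ 2 / E ^ 2 * m ≤ C ^ 2 * a ^ 2 := by
      rw [div_mul_eq_mul_div, div_le_iff₀ (by positivity)]
      have hdd : d ^ 2 ≤ C ^ 2 * a ^ 2 := by
        have := mul_self_le_mul_self hd.le h1
        nlinarith
      calc d ^ 2 * m ≤ (C ^ 2 * a ^ 2) * m := mul_le_mul_of_nonneg_right hdd hm.le
        _ ≤ (C ^ 2 * a ^ 2) * E ^ 2 := mul_le_mul_of_nonneg_left hm2 (by positivity)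
    calc x ^ 2 * m ≤ (a ^ 2 * E ^ 2 + d ^ 2 / E ^ 2) * m :=
          mul_le_mul_of_nonneg_right e1 hm.le
      _ = a ^ 2 * E ^ 2 * m + d ^ 2 / E ^ 2 * m := by ring
      _ ≤ a ^ 2 + C ^ 2 * a ^ 2 := add_le_add e2 e3
  have hbc : b * c ≤ C ^ 2 * a ^ 2 := by
    calc b * c ≤ (C * a) * (C * a) := mul_le_mul h2 h3 hc.le (by positivity)
      _ = C ^ 2 * a ^ 2 := by ring
  have hbc' : a ^ 2 ≤ C ^ 2 * (b * c) := by
    calc a ^ 2 = a * a := by ring
      _ ≤ (C * b) * (C * c) := mul_le_mul h4 h5 ha.le (by positivity)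
      _ = C ^ 2 * (b * c) := by ring
  have hs2 : s ^ 2 * m ≤ a ^ 2 * (1 + 5 * C ^ 2) := by
    rw [h]
    have : 4 * b * c * m ≤ 4 * (C ^ 2 * a ^ 2) := by
      have : b * c * m ≤ b * c * 1 := mul_le_mul_of_nonneg_left hm0 (by positivity)
      nlinarith
    nlinarith
  rw [div_mul_eq_mul_div, div_le_div_iff₀ (by positivity) (by positivity)]
  have t1 : 2 * m * (2 * s ^ 2) = 4 * (s ^ 2 * m) := by ring
  have t2 : a ^ 2 * (1 + 5 * C ^ 2) ≤ C ^ 2 * (b * c) * (1 + 5 * C ^ 2) :=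
    mul_le_mul_of_nonneg_right hbc' (by positivity)
  rw [t1]
  nlinarith

theorem FD3 (hB8 : BD8_stmt) (hT1 : TW1_stmt) : FD3_stmt := by
  refine ⟨FD3_fst, ?_⟩
  intro C hC
  refine ⟨8 * C ^ 2 + 4 * C, 2 / (C ^ 2 * (1 + 5 * C ^ 2)), by positivity, ?_⟩
  intro N F g h T t hN hcmp ht hg hh
  have hF : IsFrame F (F • bInf, F • bZero) := ⟨rfl, rfl⟩
  have hga : Attracts g (F • bInf, F • bZero) := (hB8.1 _ _).2 ⟨F, t, hF, ht, hg⟩
  have hax : axis g = F.1 * hM * (F⁻¹).1 := (hT1.1 g F _ 0 hga hF).2.1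
  set E := Real.exp (T / 2) with hE
  have hEp : 0 < E := Real.exp_pos _
  have n00 := hN 0 0
  have n01 := hN 0 1
  have n10 := hN 1 0
  have n11 := hN 1 1
  have hdet : N.1 0 0 * N.1 1 1 - N.1 0 1 * N.1 1 0 = 1 := by
    have := N.2
    rwa [Matrix.det_fin_two] at this
  -- the matrix `Q`
  set Q := N * Dm T with hQ
  have hEm : Real.exp (-(T / 2)) = 1 / E := by rw [Real.exp_neg, one_div]
  have q00 : Q.1 0 0 = N.1 0 0 * E := by
    rw [hQ, FD3_mul]; simp [Dm, hE]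
  have q01 : Q.1 0 1 = N.1 0 1 / E := by
    rw [hQ, FD3_mul]; simp [Dm, Real.exp_neg, hE]; ring
  have q10 : Q.1 1 0 = N.1 1 0 * E := by
    rw [hQ, FD3_mul]; simp [Dm, hE]
  have q11 : Q.1 1 1 = N.1 1 1 / E := by
    rw [hQ, FD3_mul]; simp [Dm, Real.exp_neg, hE]; ring
  have htrQ : trc Q = N.1 0 0 * E + N.1 1 1 / E := by unfold trc; rw [q00, q11]
  have htr2 : 2 < trc Q := by
    rw [htrQ]
    have e : N.1 0 0 * E * (N.1 1 1 / E) = N.1 0 0 * N.1 1 1 := by field_simp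
    have p1 : 0 < N.1 0 0 * E := by positivity
    have p2 : 0 < N.1 1 1 / E := by positivity
    have p3 : 1 < N.1 0 0 * E * (N.1 1 1 / E) := by
      rw [e]
      nlinarith [mul_pos n01 n10]
    nlinarith [sq_nonneg (N.1 0 0 * E - N.1 1 1 / E)]
  have htrc : trc (F * Q * F⁻¹) = trc Q := CLK_conj Q F
  have hh2 : 2 < |trc h| := by
    rw [CLK_abs hh, htrc]
    exact lt_of_lt_of_le htr2 (le_abs_self _)
  have hpos : pos h = F * Q * F⁻¹ := by
    rw [CLK_pos_eq hh hh2]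
    unfold pos
    rw [if_pos]
    rw [htrc]
    linarith
  obtain ⟨w1, w2, w3, w4, w5⟩ := hT1.2.2.2 h hh2
  -- scalar product
  set s := 2 * Real.sinh (len h / 2) with hsdef
  have hsp : 0 < s := by
    have : 0 < Real.sinh (len h / 2) := by rw [Real.sinh_pos_iff]; positivity
    positivity
  have hch : trc Q = 2 * Real.cosh (len h / 2) := by
    rw [← w5, CLK_abs hh, htrc, abs_of_pos (by linarith)]
  have hs2 : s ^ 2 = (N.1 0 0 * E - N.1 1 1 / E) ^ 2 + 4 * N.1 0 1 * N.1 1 0 := by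
    have e1 := Real.cosh_sq (len h / 2)
    have e2 : s ^ 2 = trc Q ^ 2 - 4 := by rw [hch, hsdef]; nlinarith
    rw [e2, htrQ]
    have e3 : (N.1 0 0 * E + N.1 1 1 / E) ^ 2 =
        (N.1 0 0 * E - N.1 1 1 / E) ^ 2 + 4 * (N.1 0 0 * N.1 1 1) := by
      field_simp
      ring
    rw [e3]
    nlinarith
  have hip : s * ip (axis g) (axis h) = N.1 0 0 * E - N.1 1 1 / E := by
    have e1 : Real.sinh (len h / 2) • axis h =
        (F * Q * F⁻¹).1 - Real.cosh (len h / 2) • (1 : Matrix (Fin 2) (Fin 2) ℝ) := by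
      rw [← hpos, w1]
      abel
    have e2 : s * ip (axis g) (axis h) = (axis g * (Real.sinh (len h / 2) • axis h)).trace := by
      unfold ip
      rw [Matrix.mul_smul, Matrix.trace_smul, hsdef]
      simp only [smul_eq_mul]
      ring
    have e3 : (F.1 * hM * (F⁻¹).1 * (F * Q * F⁻¹).1).trace = Q.1 0 0 - Q.1 1 1 := by
      have c1 : (F⁻¹).1 * F.1 = 1 := by
        rw [← Matrix.SpecialLinearGroup.coe_mul, inv_mul_cancel,
          Matrix.SpecialLinearGroup.coe_one]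
      have c2 : F.1 * hM * (F⁻¹).1 * (F * Q * F⁻¹).1 = F.1 * (hM * Q.1) * (F⁻¹).1 := by
        rw [Matrix.SpecialLinearGroup.coe_mul, Matrix.SpecialLinearGroup.coe_mul]
        calc F.1 * hM * (F⁻¹).1 * (F.1 * Q.1 * (F⁻¹).1)
            = F.1 * hM * ((F⁻¹).1 * F.1) * Q.1 * (F⁻¹).1 := by
              simp only [Matrix.mul_assoc]
          _ = F.1 * (hM * Q.1) * (F⁻¹).1 := by
              rw [c1, Matrix.mul_one]
              simp only [Matrix.mul_assoc]
      rw [c2, Matrix.trace_mul_comm, ← Matrix.mul_assoc, c1, Matrix.one_mul]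
      rw [Matrix.trace_fin_two, Matrix.mul_apply, Matrix.mul_apply]
      simp [hM, Fin.sum_univ_two]
      ring
    have e4 : (F.1 * hM * (F⁻¹).1).trace = 0 := by
      have c1 : (F⁻¹).1 * F.1 = 1 := by
        rw [← Matrix.SpecialLinearGroup.coe_mul, inv_mul_cancel,
          Matrix.SpecialLinearGroup.coe_one]
      rw [Matrix.mul_assoc, Matrix.trace_mul_comm, Matrix.mul_assoc, c1, Matrix.mul_one]
      simp [hM, Matrix.trace_fin_two]
    rw [e2, e1, hax, Matrix.mul_sub, Matrix.trace_sub, e3, Matrix.mul_smul, Matrix.mul_one,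
      Matrix.trace_smul, e4, q00, q11]
    simp
  set x := N.1 0 0 * E - N.1 1 1 / E with hx
  have hipx : ip (axis g) (axis h) = x / s := by
    rw [eq_div_iff hsp.ne', mul_comm]; exact hip
  have hT1' : Real.exp (-T) = 1 / E ^ 2 := by
    rw [hE, ← Real.exp_nat_mul, one_div, ← Real.exp_neg]
    congr 1
    push_cast
    ring
  have hT2' : Real.exp T = E ^ 2 := by
    rw [hE, ← Real.exp_nat_mul]
    congr 1
    push_cast
    ring
  rw [hipx]
  refine ⟨?_, ?_, ?_⟩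
  · have := FD3_num2 n00 n01 n10 n11 hC (hcmp 1 1 0 0) (hcmp 0 1 0 0) (hcmp 1 0 0 0) hEp hsp hs2
    rw [hT1', mul_one_div]
    exact this
  · have hE' : 0 < 1 / E := by positivity
    have hs3 : s ^ 2 = (N.1 1 1 * (1 / E) - N.1 0 0 / (1 / E)) ^ 2 + 4 * N.1 0 1 * N.1 1 0 := by
      rw [hs2, hx]
      congr 1
      rw [div_div_eq_mul_div, div_one]
      ring
    have := FD3_num2 n11 n01 n10 n00 hC (hcmp 0 0 1 1) (hcmp 0 1 1 1) (hcmp 1 0 1 1) hE' hsp hs3
    have e : N.1 1 1 * (1 / E) - N.1 0 0 / (1 / E) = -x := by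
      rw [hx, div_div_eq_mul_div, div_one]
      ring
    rw [e] at this
    have e2 : 1 - -x / s = 1 + x / s := by ring
    rw [e2] at this
    refine this.trans_eq ?_
    rw [hT2']
    field_simp
  · have habs : |x / s| = |x| / s := by rw [abs_div, abs_of_pos hsp]
    rw [habs]
    refine FD3_num3 n00 n01 n10 n11 hC (hcmp 1 1 0 0) (hcmp 0 1 0 0) (hcmp 1 0 0 0)
      (hcmp 0 0 0 1) (hcmp 0 0 1 0) hEp hsp hs2 (Real.exp_pos _) ?_ ?_
    · rw [← hT2', ← Real.exp_add, Real.exp_le_one_iff]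
      have := le_abs_self T
      linarith
    · rw [← hT2', Real.exp_le_exp]
      have := neg_abs_le T
      linarith

end AdSBend
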